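import Mathlib
import Pool.Agent.H32BU.All

set_option autoImplicit false

/-!
# Groups with finite soluble three-generator subgroups, part A: finite subgroups in all universes
-/

namespace Pool.Agent.Y552.BU

open Pool.Agent.H32BU

universe u v

/-- the subgroup generated by the commutators of elements of `A` of coprime orders -/
def NRu {G : Type u} [Group G] (A : Subgroup G) : Subgroup G :=
  Subgroup.closure {g | ∃ x ∈ A, ∃ y ∈ A, ∃ a b : ℕ, Nat.Coprime a b ∧ x ^ a = 1 ∧ y ^ b = 1 ∧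
    g = x * y * x⁻¹ * y⁻¹}

/-- the iterated subgroups `NRu` (for a finite group: the lower Fitting series) -/
def DDu {G : Type u} [Group G] (A : Subgroup G) : ℕ → Subgroup G
  | 0 => A
  | m + 1 => NRu (DDu A m)

theorem DDu_eq {G : Type} [Group G] (A : Subgroup G) (m : ℕ) : DDu A m = DD A m := by
  induction m with
  | zero => rfl
  | succ m ih =>
    show NRu (DDu A m) = NR (DD A m)
    rw [ih]
    rfl

theorem NRu_mono {G : Type u} [Group G] {A B : Subgroup G} (h : A ≤ B) : NRu A ≤ NRu B := by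
  unfold NRu
  apply Subgroup.closure_mono
  rintro g ⟨x, hx, y, hy, a, b, hab, hxa, hyb, hg⟩
  exact ⟨x, h hx, y, h hy, a, b, hab, hxa, hyb, hg⟩

theorem NRu_le {G : Type u} [Group G] (A : Subgroup G) : NRu A ≤ A := by
  unfold NRu
  rw [Subgroup.closure_le]
  rintro g ⟨x, hx, y, hy, a, b, hab, hxa, hyb, rfl⟩
  exact A.mul_mem (A.mul_mem (A.mul_mem hx hy) (A.inv_mem hx)) (A.inv_mem hy)

theorem DDu_mono {G : Type u} [Group G] {A B : Subgroup G} (h : A ≤ B) (m : ℕ) :
    DDu A m ≤ DDu B m := by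
  induction m with
  | zero => exact h
  | succ m ih => exact NRu_mono ih

theorem DDu_le {G : Type u} [Group G] (A : Subgroup G) (m : ℕ) : DDu A m ≤ A := by
  induction m with
  | zero => exact le_rfl
  | succ m ih => exact (NRu_le _).trans ih

theorem lift_u {G : Type u} {H : Type v} [Group G] [Group H] (f : G →* H) (x : G)
    (hx : IsOfFinOrder x) (a : ℕ)
    (hxa : f x ^ a = 1) : ∃ k u N : ℕ, u ∣ a ^ N ∧ (x ^ k) ^ u = 1 ∧ f (x ^ k) = f x := by
  obtain ⟨u, v, N, ho, hv, hu⟩ := TMAPS.split a (orderOf x) hx.orderOf_pos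
  have hd1 : orderOf (f x) ∣ orderOf x := orderOf_map_dvd f x
  have hd2 : orderOf (f x) ∣ a := orderOf_dvd_of_pow_eq_one hxa
  have hdu : orderOf (f x) ∣ u := by
    rw [ho] at hd1
    exact (Nat.Coprime.coprime_dvd_left hd2 hv.symm).dvd_of_dvd_mul_right hd1
  have huv : Nat.Coprime u v := Nat.Coprime.coprime_dvd_left hu (hv.symm.pow_left N)
  obtain ⟨k, hk1, hk2⟩ := Nat.chineseRemainder huv 1 0
  refine ⟨k, u, N, hu, ?_, ?_⟩
  · rw [← pow_mul, ← orderOf_dvd_iff_pow_eq_one, ho, mul_comm k u]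
    exact mul_dvd_mul_left u ((Nat.modEq_zero_iff_dvd).1 hk2)
  · rw [map_pow]
    have h1 : k ≡ 1 [MOD orderOf (f x)] := hk1.of_dvd hdu
    have h2 : f x ^ k = f x ^ 1 := pow_eq_pow_iff_modEq.2 h1
    rw [h2, pow_one]

theorem NRu_map {G : Type u} {H : Type v} [Group G] [Group H] (f : G →* H) (A : Subgroup G)
    (hf : ∀ x ∈ A, IsOfFinOrder x) : (NRu A).map f = NRu (A.map f) := by
  apply le_antisymm
  · unfold NRu
    rw [MonoidHom.map_closure]
    apply Subgroup.closure_mono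
    rintro _ ⟨g, ⟨x, hx, y, hy, a, b, hab, hxa, hyb, rfl⟩, rfl⟩
    refine ⟨f x, Subgroup.mem_map_of_mem f hx, f y, Subgroup.mem_map_of_mem f hy, a, b, hab,
      ?_, ?_, ?_⟩
    · rw [← map_pow, hxa, map_one]
    · rw [← map_pow, hyb, map_one]
    · simp only [map_mul, map_inv]
  · refine (Subgroup.closure_le _).2 ?_
    rintro _ ⟨_, ⟨x, hx, rfl⟩, _, ⟨y, hy, rfl⟩, a, b, hab, hxa, hyb, rfl⟩
    obtain ⟨k, u, N, hu, h1, h2⟩ := lift_u f x (hf x hx) a hxa
    obtain ⟨l, w, M, hw, h3, h4⟩ := lift_u f y (hf y hy) b hyb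
    have hc : Nat.Coprime u w := Nat.Coprime.coprime_dvd_left hu
      (Nat.Coprime.coprime_dvd_right hw ((hab.pow_left N).pow_right M))
    refine ⟨x ^ k * y ^ l * (x ^ k)⁻¹ * (y ^ l)⁻¹, Subgroup.subset_closure
      ⟨x ^ k, A.pow_mem hx k, y ^ l, A.pow_mem hy l, u, w, hc, h1, h3, rfl⟩, ?_⟩
    simp only [map_mul, map_inv, h2, h4]

theorem DDu_map {G : Type u} {H : Type v} [Group G] [Group H] (f : G →* H) (A : Subgroup G)
    (hf : ∀ x ∈ A, IsOfFinOrder x) (m : ℕ) : (DDu A m).map f = DDu (A.map f) m := by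
  induction m with
  | zero => rfl
  | succ m ih =>
    show (NRu (DDu A m)).map f = NRu (DDu (A.map f) m)
    rw [NRu_map f _ (fun x hx => hf x (DDu_le A m hx)), ih]

/-- a finite subgroup is the image of a finite group in the lowest universe -/
theorem exists_small {G : Type u} [Group G] (E : Subgroup G) (hE : Finite E) :
    ∃ (F : Type) (_ : Group F) (_ : Finite F) (f : F →* G), Function.Injective f ∧ f.range = E := by
  obtain ⟨φ⟩ : Nonempty (Shrink.{0} E ≃* E) := ⟨Shrink.mulEquiv⟩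
  refine ⟨Shrink.{0} E, inferInstance, inferInstance, E.subtype.comp φ.toMonoidHom, ?_, ?_⟩
  · exact E.subtype_injective.comp φ.injective
  · rw [MonoidHom.range_comp]
    have h1 : φ.toMonoidHom.range = ⊤ := MonoidHom.range_eq_top.2 φ.surjective
    rw [h1, ← MonoidHom.range_eq_map, Subgroup.range_subtype]

theorem map_c {G : Type u} {H : Type v} [Group G] [Group H] (f : G →* H) (a x : G) :
    (Subgroup.closure {a, x}).map f = Subgroup.closure {f a, f x} := by
  rw [MonoidHom.map_closure, Set.image_pair]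

theorem map_c' {G : Type u} {H : Type v} [Group G] [Group H] (f : G →* H) (a x z : G) :
    (Subgroup.closure {a, x, z}).map f = Subgroup.closure {f a, f x, f z} := by
  rw [MonoidHom.map_closure]
  congr 1
  simp [Set.image_insert_eq]

theorem pow_qp {F : Type u} [Group F] {n p : ℕ} (hp : p.Prime) (hn : n ≠ 0) (x : F)
    (hx : x ^ n = 1) (h : ∃ k : ℕ, x ^ p ^ k = 1) : x ^ qp p n = 1 := by
  obtain ⟨k, hk⟩ := h
  rw [← orderOf_dvd_iff_pow_eq_one] at hk hx ⊢
  obtain ⟨j, -, hjo⟩ := (Nat.dvd_prime_pow hp).1 hk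
  rw [hjo] at hx ⊢
  exact pow_dvd_pow p ((hp.pow_dvd_iff_le_factorization hn).1 hx)

theorem copc {G : Type u} [Group G] (E : Subgroup G) (hE : Finite E) (m : ℕ)
    (hm : DDu E (m + 1) = ⊥) (p : ℕ) (hp : p.Prime) (e : G) (he : e ∈ DDu E m)
    (hep : ∃ k : ℕ, e ^ p ^ k = 1) (y : G) (hy : y ∈ E) (hyp : ∃ k : ℕ, y ^ p ^ k = 1) :
    ∀ c ∈ Subgroup.closure {e, y}, ∃ k : ℕ, c ^ p ^ k = 1 := by
  obtain ⟨F, _, _, f, hf, rfl⟩ := exists_small E hE
  have hr : f.range = (⊤ : Subgroup F).map f := MonoidHom.range_eq_map f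
  have htor : ∀ x ∈ (⊤ : Subgroup F), IsOfFinOrder x := fun x _ => isOfFinOrder_of_finite x
  rw [hr, ← DDu_map f _ htor, DDu_eq] at hm he
  have hm' : DD (⊤ : Subgroup F) (m + 1) = ⊥ :=
    (Subgroup.map_eq_bot_iff_of_injective _ hf).1 hm
  obtain ⟨e, he, rfl⟩ := he
  obtain ⟨y, rfl⟩ := hy
  have hinj : ∀ (x : F) (k : ℕ), f x ^ k = 1 → x ^ k = 1 := fun x k h => hf (by
    rw [map_pow, map_one, h])
  have hep' : ∃ k : ℕ, e ^ p ^ k = 1 := hep.imp fun k h => hinj e _ h
  have hyp' : ∃ k : ℕ, y ^ p ^ k = 1 := hyp.imp fun k h => hinj y _ h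
  have hn : Nat.card F ≠ 0 := Nat.card_pos.ne'
  have hft : Finite (⊤ : Subgroup F) := inferInstance
  have key := x_COPC F ⊤ hft (Nat.card F) Nat.card_pos (fun x _ => pow_card_eq_one') m hm' p hp
    e he (pow_qp hp hn e pow_card_eq_one' hep') y (Subgroup.mem_top y)
    (pow_qp hp hn y pow_card_eq_one' hyp')
  intro c hc
  rw [← map_c f e y] at hc
  obtain ⟨c, hc, rfl⟩ := hc
  refine ⟨(Nat.card F).factorization p, ?_⟩
  have h1 := key c hc
  rw [← map_pow]
  unfold qp at h1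
  rw [h1, map_one]

theorem two {G : Type u} [Group G] (E : Subgroup G) (hE : Finite E) (hs : Group.IsSolvable E)
    (m : ℕ) (h : ∀ a ∈ E, ∀ x ∈ E, DDu (Subgroup.closure {a, x}) m = ⊥) : DDu E m = ⊥ := by
  obtain ⟨F, _, _, f, hf, rfl⟩ := exists_small E hE
  have hr : f.range = (⊤ : Subgroup F).map f := MonoidHom.range_eq_map f
  have hsF : Group.IsSolvable F := by
    have hinj : Function.Injective f.rangeRestrict := fun x y hxy => hf (by
      have := congrArg Subtype.val hxy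
      simpa using this)
    exact Group.isSolvable_of_isSolvable_injective hinj
  have key := x_TWO F inferInstance hsF m (fun a x => by
    have h1 := h (f a) ⟨a, rfl⟩ (f x) ⟨x, rfl⟩
    rw [← map_c f a x, ← DDu_map f _ (fun x _ => isOfFinOrder_of_finite x), DDu_eq] at h1
    exact (Subgroup.map_eq_bot_iff_of_injective _ hf).1 h1)
  rw [hr, ← DDu_map f _ (fun x _ => isOfFinOrder_of_finite x), DDu_eq, key, Subgroup.map_bot]

end Pool.Agent.Y552.BU
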