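import Mathlib
import Pool.Agent.Y552.BU.A

set_option autoImplicit false

/-!
# Groups with finite soluble three-generator subgroups, part B: the series
-/

namespace Pool.Agent.Y552.BU

open Pool.Agent.H32BU

universe u v

/-- the order of `x` is a power of `p` -/
def IsP (p : ℕ) {G : Type u} [Group G] (x : G) : Prop := ∃ k : ℕ, x ^ p ^ k = 1

/-- the `p`-elements which generate `p`-groups with all `p`-elements -/
def Np (p : ℕ) (G : Type u) [Group G] : Set G :=
  {e | IsP p e ∧ ∀ y, IsP p y → ∀ c ∈ Subgroup.closure {e, y}, IsP p c}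

theorem IsP.conj {p : ℕ} {G : Type u} [Group G] {x : G} (h : IsP p x) (g : G) :
    IsP p (g * x * g⁻¹) := by
  obtain ⟨k, hk⟩ := h
  exact ⟨k, by rw [conj_pow, hk]; simp⟩

theorem Np_conj {p : ℕ} {G : Type u} [Group G] (e g : G) (he : e ∈ Np p G) :
    g * e * g⁻¹ ∈ Np p G := by
  obtain ⟨h1, h2⟩ := he
  refine ⟨h1.conj g, fun y hy c hc => ?_⟩
  have hy' : IsP p (g⁻¹ * y * g) := by
    have := hy.conj g⁻¹
    rwa [inv_inv] at this
  have hle : Subgroup.closure {g * e * g⁻¹, y} ≤
      (Subgroup.closure {e, g⁻¹ * y * g}).comap (MulAut.conj g⁻¹).toMonoidHom := by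
    rw [Subgroup.closure_le]
    intro z hz
    have hz' : z = g * e * g⁻¹ ∨ z = y := hz
    show g⁻¹ * z * g⁻¹⁻¹ ∈ Subgroup.closure ({e, g⁻¹ * y * g} : Set G)
    rcases hz' with h | h
    · have : g⁻¹ * z * g⁻¹⁻¹ = e := by rw [h]; group
      rw [this]
      exact Subgroup.subset_closure (Or.inl rfl)
    · rw [inv_inv, h]
      exact Subgroup.subset_closure (Or.inr rfl)
  have h3 : g⁻¹ * c * g⁻¹⁻¹ ∈ Subgroup.closure {e, g⁻¹ * y * g} := hle hc
  have h4 := (h2 _ hy' _ h3).conj g
  have h5 : g * (g⁻¹ * c * g⁻¹⁻¹) * g⁻¹ = c := by group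
  rwa [h5] at h4

theorem closure_Np_isP {p : ℕ} {G : Type u} [Group G] (g : G)
    (hg : g ∈ Subgroup.closure (Np p G)) : IsP p g := by
  induction hg using Subgroup.closure_induction_right with
  | one => exact ⟨0, one_pow _⟩
  | mul_right x hx y hy ih =>
    exact hy.2 x ih _ (Subgroup.mul_mem _ (Subgroup.subset_closure (Or.inr rfl))
      (Subgroup.subset_closure (Or.inl rfl)))
  | mul_inv_cancel x hx y hy ih =>
    exact hy.2 x ih _ (Subgroup.mul_mem _ (Subgroup.subset_closure (Or.inr rfl))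
      (Subgroup.inv_mem _ (Subgroup.subset_closure (Or.inl rfl))))

instance closure_Np_normal {p : ℕ} {G : Type u} [Group G] :
    (Subgroup.closure (Np p G)).Normal := by
  constructor
  intro n hn g
  have hle : Subgroup.closure (Np p G) ≤
      (Subgroup.closure (Np p G)).comap (MulAut.conj g).toMonoidHom := by
    rw [Subgroup.closure_le]
    intro z hz
    exact Subgroup.subset_closure (Np_conj z g hz)
  exact hle hn

/-- the subgroup generated by the sets `Np` -/
def MM (G : Type u) [Group G] : Subgroup G :=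
  ⨆ p : {p : ℕ // p.Prime}, Subgroup.closure (Np p.1 G)

instance MM_normal (G : Type u) [Group G] : (MM G).Normal := by
  unfold MM
  infer_instance

theorem mem_of_parts_u {G : Type u} [Group G] (M : Subgroup G) [M.Normal] (n : ℕ) (hn : n ≠ 0)
    (e : G) (h : ∀ p : ℕ, p.Prime → e ^ (n / qp p n) ∈ M) : e ∈ M := by
  rw [← QuotientGroup.eq_one_iff, ← orderOf_eq_one_iff]
  by_contra hcon
  obtain ⟨p, hp, hpd⟩ := Nat.exists_prime_and_dvd hcon
  have h1 : orderOf (e : G ⧸ M) ∣ n / qp p n := by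
    apply orderOf_dvd_of_pow_eq_one
    rw [← QuotientGroup.mk_pow, QuotientGroup.eq_one_iff]
    exact h p hp
  exact Nat.not_dvd_ordCompl hp hn (hpd.trans h1)

/-- all subgroups generated by three elements are finite and soluble -/
def FS3 (G : Type u) [Group G] : Prop :=
  ∀ x y z : G, Finite (Subgroup.closure {x, y, z}) ∧
    Group.IsSolvable (Subgroup.closure {x, y, z})

theorem FS3.tor {G : Type u} [Group G] (h : FS3 G) (x : G) : IsOfFinOrder x := by
  have h1 := (h x x x).1
  have h2 : x ∈ Subgroup.closure {x, x, x} := Subgroup.subset_closure (by simp)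
  have h3 : IsOfFinOrder (⟨x, h2⟩ : Subgroup.closure {x, x, x}) := isOfFinOrder_of_finite _
  exact MonoidHom.isOfFinOrder (Subgroup.subtype _) h3

theorem FS3.quot {G : Type u} [Group G] (h : FS3 G) (M : Subgroup G) [M.Normal] : FS3 (G ⧸ M) := by
  intro x' y' z'
  obtain ⟨x, rfl⟩ := QuotientGroup.mk_surjective x'
  obtain ⟨y, rfl⟩ := QuotientGroup.mk_surjective y'
  obtain ⟨z, rfl⟩ := QuotientGroup.mk_surjective z'
  obtain ⟨hf, hs⟩ := h x y z
  have hmap := map_c' (QuotientGroup.mk' M) x y z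
  have hsurj := (QuotientGroup.mk' M).subgroupMap_surjective (Subgroup.closure {x, y, z})
  have h1 : Finite ((Subgroup.closure {x, y, z}).map (QuotientGroup.mk' M)) :=
    Finite.of_surjective _ hsurj
  have h2 : Group.IsSolvable ((Subgroup.closure {x, y, z}).map (QuotientGroup.mk' M)) :=
    Group.isSolvable_of_surjective hsurj
  rw [hmap] at h1 h2
  exact ⟨h1, h2⟩

/-- the heights of the three-generator subgroups -/
theorem height3 {G : Type u} [Group G] (h3 : FS3 G) (m : ℕ)
    (h2 : ∀ a x : G, DDu (Subgroup.closure {a, x}) m = ⊥) (a x z : G) :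
    DDu (Subgroup.closure {a, x, z}) m = ⊥ :=
  two _ (h3 a x z).1 (h3 a x z).2 m fun a' _ x' _ => h2 a' x'

/-- one step -/
theorem step {G : Type u} [Group G] (h3 : FS3 G) (m : ℕ)
    (h2 : ∀ a x : G, DDu (Subgroup.closure {a, x}) (m + 1) = ⊥) (a x : G) :
    DDu (Subgroup.closure {a, x}) m ≤ MM G := by
  intro e he
  have htor := h3.tor e
  apply mem_of_parts_u (MM G) (orderOf e) htor.orderOf_pos.ne' e
  intro p hp
  have hle : Subgroup.closure (Np p G) ≤ MM G :=
    le_iSup (fun p : {p : ℕ // p.Prime} => Subgroup.closure (Np p.1 G)) ⟨p, hp⟩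
  apply hle
  apply Subgroup.subset_closure
  have hpe : IsP p (e ^ (orderOf e / qp p (orderOf e))) := by
    refine ⟨(orderOf e).factorization p, ?_⟩
    rw [← pow_mul]
    have h5 : orderOf e / qp p (orderOf e) * p ^ (orderOf e).factorization p = orderOf e :=
      Nat.div_mul_cancel (Nat.ordProj_dvd _ p)
    rw [h5, pow_orderOf_eq_one]
  refine ⟨hpe, ?_⟩
  intro y hy
  have hle : Subgroup.closure {a, x} ≤ Subgroup.closure {a, x, y} := by
    apply Subgroup.closure_mono
    intro t ht
    simp only [Set.mem_insert_iff, Set.mem_singleton_iff] at ht ⊢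
    tauto
  exact copc (Subgroup.closure {a, x, y}) (h3 a x y).1 m (height3 h3 (m + 1) h2 a x y) p hp _
    (Subgroup.pow_mem _ (DDu_mono hle m he) _) hpe y (Subgroup.subset_closure (by simp)) hy

/-- the canonical series -/
def US (G : Type u) [Group G] : ℕ → {N : Subgroup G // N.Normal}
  | 0 => ⟨⊥, inferInstance⟩
  | i + 1 =>
    haveI := (US G i).2
    ⟨(MM (G ⧸ (US G i).1)).comap (QuotientGroup.mk' (US G i).1), inferInstance⟩

instance US_normal (G : Type u) [Group G] (i : ℕ) : (US G i).1.Normal := (US G i).2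

theorem US_succ (G : Type u) [Group G] (i : ℕ) :
    (US G (i + 1)).1 = (MM (G ⧸ (US G i).1)).comap (QuotientGroup.mk' (US G i).1) := rfl

theorem US_eq_top {G : Type u} [Group G] (h3 : FS3 G) (m : ℕ)
    (h2 : ∀ a x : G, DDu (Subgroup.closure {a, x}) m = ⊥) : (US G m).1 = ⊤ := by
  have key : ∀ i ≤ m, ∀ a x : G, DDu (Subgroup.closure {a, x}) (m - i) ≤ (US G i).1 := by
    intro i
    induction i with
    | zero =>
      intro _ a x
      rw [Nat.sub_zero, h2]
      exact bot_le
    | succ i ih =>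
      intro hi a x
      have ih' := ih (by omega)
      obtain ⟨k, hk⟩ : ∃ k, m - i = k + 1 := ⟨m - i - 1, by omega⟩
      have hk' : m - (i + 1) = k := by omega
      rw [hk'] 
      rw [hk] at ih'
      have h4 : ∀ a' x' : G ⧸ (US G i).1, DDu (Subgroup.closure {a', x'}) (k + 1) = ⊥ := by
        intro a' x'
        obtain ⟨a, rfl⟩ := QuotientGroup.mk'_surjective _ a'
        obtain ⟨x, rfl⟩ := QuotientGroup.mk'_surjective _ x'
        rw [← map_c, ← DDu_map _ _ (fun t _ => h3.tor t), Subgroup.map_eq_bot_iff,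
          QuotientGroup.ker_mk']
        exact ih' a x
      have h5 := step (h3.quot (US G i).1) k h4 (QuotientGroup.mk' _ a) (QuotientGroup.mk' _ x)
      rw [← map_c, ← DDu_map _ _ (fun t _ => h3.tor t), Subgroup.map_le_iff_le_comap] at h5
      exact h5
  rw [eq_top_iff]
  intro g _
  have h6 := key m le_rfl g g
  rw [Nat.sub_self] at h6
  exact h6 (Subgroup.subset_closure (by simp))

/-- the normal `p`-subgroups in the factors -/
def PP (G : Type u) [Group G] (i p : ℕ) : Subgroup G :=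
  (Subgroup.closure (Np p (G ⧸ (US G i).1))).comap (QuotientGroup.mk' (US G i).1)

instance PP_normal (G : Type u) [Group G] (i p : ℕ) : (PP G i p).Normal := by
  unfold PP
  infer_instance

theorem US_le_PP (G : Type u) [Group G] (i p : ℕ) : (US G i).1 ≤ PP G i p := by
  intro x hx
  have h1 : QuotientGroup.mk' (US G i).1 x = 1 := (QuotientGroup.eq_one_iff x).2 hx
  show QuotientGroup.mk' (US G i).1 x ∈ Subgroup.closure (Np p (G ⧸ (US G i).1))
  rw [h1]
  exact one_mem _

theorem PP_pow {G : Type u} [Group G] {i p : ℕ} {x : G} (hx : x ∈ PP G i p) :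
    ∃ k : ℕ, x ^ p ^ k ∈ (US G i).1 := by
  obtain ⟨k, hk⟩ := closure_Np_isP _ hx
  rw [← map_pow] at hk
  exact ⟨k, (QuotientGroup.eq_one_iff _).1 hk⟩

theorem PP_le_US {G : Type u} [Group G] {i p : ℕ} (hp : p.Prime) : PP G i p ≤ (US G (i + 1)).1 := by
  rw [US_succ]
  exact Subgroup.comap_mono
    (le_iSup (fun p : {p : ℕ // p.Prime} => Subgroup.closure (Np p.1 (G ⧸ (US G i).1))) ⟨p, hp⟩)

theorem US_le_succ (G : Type u) [Group G] (i : ℕ) : (US G i).1 ≤ (US G (i + 1)).1 :=
  (US_le_PP G i 2).trans (PP_le_US Nat.prime_two)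

theorem US_succ_eq (G : Type u) [Group G] (i : ℕ) :
    (US G (i + 1)).1 = ⨆ p : {p : ℕ // p.Prime}, PP G i p.1 := by
  apply le_antisymm
  · intro x hx
    have hx' : QuotientGroup.mk' (US G i).1 x ∈ MM (G ⧸ (US G i).1) := hx
    have h1 : MM (G ⧸ (US G i).1) =
        (⨆ p : {p : ℕ // p.Prime}, PP G i p.1).map (QuotientGroup.mk' (US G i).1) := by
      rw [Subgroup.map_iSup]
      unfold MM PP
      congr 1
      funext p
      rw [Subgroup.map_comap_eq_self_of_surjective (QuotientGroup.mk'_surjective _)]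
    rw [h1] at hx'
    obtain ⟨y, hy, hyx⟩ := hx'
    have h2 : y⁻¹ * x ∈ (US G i).1 := QuotientGroup.eq.1 hyx
    have h3 : y⁻¹ * x ∈ ⨆ p : {p : ℕ // p.Prime}, PP G i p.1 :=
      (US_le_PP G i 2).trans (le_iSup (fun p : {p : ℕ // p.Prime} => PP G i p.1)
        ⟨2, Nat.prime_two⟩) h2
    have h4 := mul_mem hy h3
    rwa [mul_inv_cancel_left] at h4
  · exact iSup_le fun p => PP_le_US p.2

end Pool.Agent.Y552.BU
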