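import Mathlib
import Pool.Agent.Y552.BU.B

set_option autoImplicit false

/-!
# Groups with finite soluble three-generator subgroups, part C: consequences
-/

namespace Pool.Agent.Y552.BU

open Pool.Agent.H32BU

universe u v

/-- `E` is soluble of Fitting height at most `h`. -/
def FH : ℕ → (E : Type u) → [Group E] → Prop
  | 0, E, _ => ∀ x : E, x = 1
  | h + 1, E, _ => ∃ (N : Subgroup E) (_ : N.Normal), Group.IsNilpotent N ∧ FH h (E ⧸ N)

/-- elements of coprime orders of a nilpotent group commute -/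
theorem nilpotent_coprime {G : Type u} [Group G] [hG : Group.IsNilpotent G] :
    ∀ (x y : G) (a b : ℕ), Nat.Coprime a b → x ^ a = 1 → y ^ b = 1 → x * y * x⁻¹ * y⁻¹ = 1 := by
  revert hG
  refine Group.nilpotent_center_quotient_ind
    (P := fun G [Group G] [Group.IsNilpotent G] => ∀ (x y : G) (a b : ℕ), Nat.Coprime a b →
      x ^ a = 1 → y ^ b = 1 → x * y * x⁻¹ * y⁻¹ = 1) G ?_ ?_
  · intro G _ _ x y a b _ _ _
    exact Subsingleton.elim _ _
  · intro G _ _ ih x y a b hab hx hy
    have h1 := ih (x : G ⧸ Subgroup.center G) (y : G ⧸ Subgroup.center G) a b hab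
      (by rw [← QuotientGroup.mk_pow, hx]; rfl) (by rw [← QuotientGroup.mk_pow, hy]; rfl)
    have h2 : x * y * x⁻¹ * y⁻¹ ∈ Subgroup.center G := by
      rw [← QuotientGroup.eq_one_iff]
      exact h1
    obtain ⟨z, hz⟩ : ∃ z, z = x * y * x⁻¹ * y⁻¹ := ⟨_, rfl⟩
    rw [← hz] at h2 ⊢
    have hc : ∀ g : G, g * z = z * g := fun g => (Subgroup.mem_center_iff.1 h2 g)
    have h3 : x * y * x⁻¹ = z * y := by rw [hz]; group
    have h4 : y * x * y⁻¹ = z⁻¹ * x := by rw [hz]; group
    have hcz : Commute z y := (hc y).symm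
    have hcx : Commute z⁻¹ x := (Commute.inv_left (show Commute z x from (hc x).symm))
    have h5 : z ^ b = 1 := by
      have h6 : (x * y * x⁻¹) ^ b = 1 := by rw [conj_pow, hy]; simp
      rw [h3, hcz.mul_pow, hy, mul_one] at h6
      exact h6
    have h7 : z⁻¹ ^ a = 1 := by
      have h6 : (y * x * y⁻¹) ^ a = 1 := by rw [conj_pow, hx]; simp
      rw [h4, hcx.mul_pow, hx, mul_one] at h6
      exact h6
    rw [inv_pow, inv_eq_one] at h7
    have h8 : orderOf z ∣ Nat.gcd a b :=
      Nat.dvd_gcd (orderOf_dvd_of_pow_eq_one h7) (orderOf_dvd_of_pow_eq_one h5)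
    rw [hab, Nat.dvd_one, orderOf_eq_one_iff] at h8
    exact h8

theorem NRu_nilpotent {G : Type u} [Group G] (N : Subgroup G) [Group.IsNilpotent N] :
    NRu N = ⊥ := by
  rw [eq_bot_iff]
  unfold NRu
  rw [Subgroup.closure_le]
  rintro _ ⟨x, hx, y, hy, a, b, hab, hxa, hyb, rfl⟩
  have h1 := nilpotent_coprime (⟨x, hx⟩ : N) ⟨y, hy⟩ a b hab (by ext; simpa using hxa)
    (by ext; simpa using hyb)
  have h2 := congrArg Subtype.val h1
  simpa using h2

/-- the height of the lower Fitting series -/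
theorem DDu_of_FH (h : ℕ) : ∀ (E : Type u) [Group E], (∀ x : E, IsOfFinOrder x) → FH h E →
    DDu (⊤ : Subgroup E) h = ⊥ := by
  induction h with
  | zero =>
    intro E _ _ hE
    rw [eq_bot_iff]
    intro x _
    exact Subgroup.mem_bot.2 (hE x)
  | succ h ih =>
    intro E _ htor hE
    obtain ⟨N, hN, hnil, hQ⟩ := hE
    have h1 := ih (E ⧸ N) (fun x => by
      obtain ⟨x, rfl⟩ := QuotientGroup.mk'_surjective N x
      exact MonoidHom.isOfFinOrder _ (htor x)) hQ
    have h2 : (⊤ : Subgroup (E ⧸ N)) = (⊤ : Subgroup E).map (QuotientGroup.mk' N) := by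
      rw [← MonoidHom.range_eq_map]
      exact (MonoidHom.range_eq_top.2 (QuotientGroup.mk'_surjective N)).symm
    rw [h2, ← DDu_map _ _ (fun x _ => htor x), Subgroup.map_eq_bot_iff,
      QuotientGroup.ker_mk'] at h1
    rw [eq_bot_iff, ← NRu_nilpotent N]
    exact NRu_mono h1

theorem DDu_sub {G : Type u} [Group G] (E : Subgroup G) (hE : ∀ x ∈ E, IsOfFinOrder x) (h : ℕ)
    (hFH : FH h E) : DDu E h = ⊥ := by
  have htor : ∀ x : E, IsOfFinOrder x := fun x => by
    have h1 := hE x x.2
    exact E.subtype_injective.isOfFinOrder_iff.1 h1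
  have h1 := DDu_of_FH h E htor hFH
  have h2 : E = (⊤ : Subgroup E).map E.subtype := by
    rw [← MonoidHom.range_eq_map, Subgroup.range_subtype]
  have h3 : DDu E h = DDu ((⊤ : Subgroup E).map E.subtype) h := by rw [← h2]
  rw [h3, ← DDu_map _ _ (fun x _ => htor x), h1, Subgroup.map_bot]

/-- `G` has a normal series of length `h` each factor of which is the direct product of normal
`p`-subgroups, `p` prime. -/
def PSeries (h : ℕ) (G : Type u) [Group G] : Prop :=
  ∃ N : ℕ → Subgroup G, N 0 = ⊥ ∧ N h = ⊤ ∧ ∀ i, (N i).Normal ∧ N i ≤ N (i + 1) ∧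
    ∃ P : ℕ → Subgroup G, (∀ p, p.Prime → (P p).Normal ∧ N i ≤ P p ∧
      ∀ x ∈ P p, ∃ k : ℕ, x ^ p ^ k ∈ N i) ∧ N (i + 1) = ⨆ p : {p : ℕ // p.Prime}, P p

theorem pseries_of_top {G : Type u} [Group G] (m : ℕ) (h : (US G m).1 = ⊤) : PSeries m G :=
  ⟨fun i => (US G i).1, rfl, h, fun i => ⟨(US G i).2, US_le_succ G i, fun p => PP G i p,
    fun p _ => ⟨inferInstance, US_le_PP G i p, fun _ hx => PP_pow hx⟩, US_succ_eq G i⟩⟩

/-! ## local finiteness -/

/-- locally finite -/
def LFu (G : Type u) [Group G] : Prop := ∀ S : Set G, S.Finite → Finite (Subgroup.closure S)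

theorem LFu.of_surj {G : Type u} {H : Type v} [Group G] [Group H] (f : G →* H)
    (hf : Function.Surjective f) (h : LFu G) : LFu H := by
  intro S hS
  have h1 := h (Function.surjInv hf '' S) (hS.image _)
  have h2 : Subgroup.closure S =
      (Subgroup.closure (Function.surjInv hf '' S)).map f := by
    rw [MonoidHom.map_closure, ← Set.image_comp]
    congr 1
    ext x
    simp [Function.surjInv_eq hf]
  rw [h2]
  have h3 : ((Subgroup.closure (Function.surjInv hf '' S)).map f : Set H).Finite := by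
    rw [Subgroup.coe_map]
    exact Set.Finite.image _ (Set.toFinite _)
  exact h3.to_subtype

theorem LFu.of_inj {G : Type u} {H : Type v} [Group G] [Group H] (f : G →* H)
    (hf : Function.Injective f) (h : LFu H) : LFu G := by
  intro S hS
  have h1 := h (f '' S) (hS.image _)
  have h2 : Subgroup.closure (f '' S) = (Subgroup.closure S).map f := by
    rw [MonoidHom.map_closure]
  rw [h2] at h1
  have h3 : (f '' (Subgroup.closure S : Set G)).Finite := by
    rw [← Subgroup.coe_map]
    exact Set.toFinite _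
  exact (Set.Finite.of_finite_image h3 hf.injOn).to_subtype

/-- Schmidt's theorem -/
theorem schmidt {G : Type u} [Group G] (N : Subgroup G) [N.Normal] (hN : LFu N)
    (hQ : LFu (G ⧸ N)) : LFu G := by
  intro S hS
  classical
  obtain ⟨H, hH⟩ : ∃ H : Subgroup G, H = Subgroup.closure S := ⟨_, rfl⟩
  rw [← hH]
  obtain ⟨f, hf⟩ : ∃ f : H →* G ⧸ N, f = (QuotientGroup.mk' N).comp H.subtype := ⟨_, rfl⟩
  have h1 : Finite f.range := by
    have h0 := hQ (QuotientGroup.mk' N '' S) (hS.image _)
    have e : f.range = Subgroup.closure (QuotientGroup.mk' N '' S) := by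
      rw [hf, MonoidHom.range_comp, Subgroup.range_subtype, hH, MonoidHom.map_closure]
    rw [e]
    exact h0
  have h2 : f.ker.FiniteIndex := Subgroup.finiteIndex_ker f
  have h3 : Group.FG H := by
    rw [Group.fg_iff_subgroup_fg, Subgroup.fg_iff]
    exact ⟨S, hH.symm, hS⟩
  have h4 : Group.FG f.ker := Subgroup.fg_of_index_ne_zero f.ker
  have hfa : ∀ x : H, f x = ((x : G) : G ⧸ N) := by
    intro x
    rw [hf]
    rfl
  have hmem : ∀ k : f.ker, ((k : H) : G) ∈ N := by
    intro k
    have h5 : f (k : H) = 1 := k.2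
    rw [hfa (k : H)] at h5
    exact (QuotientGroup.eq_one_iff ((k : H) : G)).1 h5
  obtain ⟨g, hg⟩ : ∃ g : f.ker →* N, ∀ k, ((g k : N) : G) = ((k : H) : G) :=
    ⟨{ toFun := fun k => ⟨((k : H) : G), hmem k⟩
       map_one' := rfl
       map_mul' := fun _ _ => rfl }, fun _ => rfl⟩
  have hginj : Function.Injective g := by
    intro x y hxy
    have h6 : ((g x : N) : G) = ((g y : N) : G) := by rw [hxy]
    rw [hg, hg] at h6
    exact Subtype.ext (Subtype.ext h6)
  have h8 : (⊤ : Subgroup f.ker).FG := h4.out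
  obtain ⟨T, hT⟩ := h8
  have h9 : Finite g.range := by
    rw [MonoidHom.range_eq_map, ← hT, MonoidHom.map_closure]
    exact hN (g '' (T : Set f.ker)) (T.finite_toSet.image _)
  have h10 : Finite f.ker := by
    refine Finite.of_injective (fun k => (⟨g k, ⟨k, rfl⟩⟩ : g.range)) fun x y hxy => ?_
    exact hginj (congrArg Subtype.val hxy)
  have h11 : Finite (H ⧸ f.ker) := Subgroup.finite_quotient_of_finiteIndex
  exact Finite.of_equiv _ (Subgroup.groupEquivQuotientProdSubgroup (s := f.ker)).symm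

theorem LFu.sup {G : Type u} [Group G] (A B : Subgroup G) [hA : A.Normal] (hLA : LFu A)
    (hLB : LFu B) : LFu ↥(A ⊔ B) := by
  have hn : (A.subgroupOf (A ⊔ B)).Normal := by infer_instance
  apply schmidt (A.subgroupOf (A ⊔ B))
  · refine LFu.of_inj (H := ↥A)
      { toFun := fun x => ⟨(x : ↥(A ⊔ B)), x.2⟩
        map_one' := rfl
        map_mul' := fun _ _ => rfl } ?_ hLA
    intro x y hxy
    have : ((x : ↥(A ⊔ B)) : G) = ((y : ↥(A ⊔ B)) : G) :=
      congrArg (fun z : ↥A => (z : G)) hxy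
    exact Subtype.ext (Subtype.ext this)
  · refine LFu.of_surj (G := ↥B) ((QuotientGroup.mk' (A.subgroupOf (A ⊔ B))).comp
      (Subgroup.inclusion (le_sup_right : B ≤ A ⊔ B))) ?_ hLB
    intro q
    obtain ⟨g, rfl⟩ := QuotientGroup.mk'_surjective _ q
    obtain ⟨g, hg⟩ := g
    obtain ⟨a, ha, b, hb, hab⟩ := (Subgroup.mem_sup_of_normal_left (s := A) (t := B)).mp hg
    refine ⟨⟨b, hb⟩, ?_⟩
    simp only [MonoidHom.comp_apply]
    rw [QuotientGroup.mk'_apply, QuotientGroup.mk'_apply, QuotientGroup.eq]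
    rw [Subgroup.mem_subgroupOf]
    simp only [Subgroup.coe_mul, Subgroup.coe_inv, Subgroup.coe_inclusion]
    rw [← hab]
    have := hA.conj_mem a ha b⁻¹
    simpa [mul_assoc] using this

theorem LFu.bot (G : Type u) [Group G] : LFu (⊥ : Subgroup G) := fun _ _ => inferInstance

theorem LFu.iSup {G : Type u} [Group G] {ι : Type v} (P : ι → Subgroup G)
    (hP : ∀ i, (P i).Normal) (hL : ∀ i, LFu (P i)) : LFu ↥(⨆ i, P i) := by
  classical
  have h1 : ∀ s : Finset ι, (⨆ i ∈ s, P i).Normal ∧ LFu ↥(⨆ i ∈ s, P i) := by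
    intro s
    induction s using Finset.induction_on with
    | empty =>
      have e : (⨆ i ∈ (∅ : Finset ι), P i) = ⊥ := by simp
      rw [e]
      exact ⟨inferInstance, LFu.bot G⟩
    | insert i s his ih =>
      have e : (⨆ j ∈ insert i s, P j) = P i ⊔ ⨆ j ∈ s, P j := Finset.iSup_insert i s P
      rw [e]
      have := hP i
      have := ih.1
      exact ⟨Subgroup.sup_normal _ _, LFu.sup _ _ (hL i) ih.2⟩
  have hdir : Directed (· ≤ ·) (fun s : Finset ι => ⨆ i ∈ s, P i) := by
    intro s t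
    refine ⟨s ∪ t, ?_, ?_⟩
    · exact biSup_mono fun i hi => Finset.mem_union_left t hi
    · exact biSup_mono fun i hi => Finset.mem_union_right s hi
  intro S hS
  have h2 : ∀ T : Set ↥(⨆ i, P i), T.Finite → ∃ s : Finset ι, ∀ x ∈ T, (x : G) ∈ ⨆ i ∈ s, P i := by
    intro T hT
    induction T, hT using Set.Finite.induction_on with
    | empty => exact ⟨∅, by simp⟩
    | @insert a T _ _ ih =>
      obtain ⟨s, hs⟩ := ih
      have h3 : (a : G) ∈ ⨆ s : Finset ι, ⨆ i ∈ s, P i := by
        rw [← iSup_eq_iSup_finset]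
        exact a.2
      rw [Subgroup.mem_iSup_of_directed hdir] at h3
      obtain ⟨t, ht⟩ := h3
      refine ⟨s ∪ t, ?_⟩
      intro x hx
      rcases hx with rfl | hx
      · exact (biSup_mono fun i hi => Finset.mem_union_right s hi :
          (⨆ i ∈ t, P i) ≤ ⨆ i ∈ s ∪ t, P i) ht
      · exact (biSup_mono fun i hi => Finset.mem_union_left t hi :
          (⨆ i ∈ s, P i) ≤ ⨆ i ∈ s ∪ t, P i) (hs x hx)
  obtain ⟨s, hs⟩ := h2 S hS
  -- transport to the finite supremum
  have h4 : Finite ((Subgroup.closure S).map (Subgroup.subtype (⨆ i, P i))) := by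
    rw [MonoidHom.map_closure]
    have h5 : Subgroup.closure ((Subgroup.subtype (⨆ i, P i)) '' S) =
        (Subgroup.closure {x : ↥(⨆ i ∈ s, P i) | (x : G) ∈ (Subgroup.subtype (⨆ i, P i)) '' S}).map
          (Subgroup.subtype _) := by
      rw [MonoidHom.map_closure]
      congr 1
      ext x
      constructor
      · rintro ⟨y, hy, rfl⟩
        exact ⟨⟨y, hs y hy⟩, ⟨y, hy, rfl⟩, rfl⟩
      · rintro ⟨y, hy, rfl⟩
        exact hy
    rw [h5]
    have h6 : {x : ↥(⨆ i ∈ s, P i) | (x : G) ∈ (Subgroup.subtype (⨆ i, P i)) '' S}.Finite :=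
      Set.Finite.preimage Subtype.val_injective.injOn (hS.image _)
    have h7 := (h1 s).2 _ h6
    exact (Set.Finite.image (Subgroup.subtype (⨆ i ∈ s, P i))
      (Set.toFinite (Subgroup.closure {x : ↥(⨆ i ∈ s, P i) |
        (x : G) ∈ (Subgroup.subtype (⨆ i, P i)) '' S} : Set ↥(⨆ i ∈ s, P i)))).to_subtype
  exact Finite.of_injective
    ((Subgroup.subtype (⨆ i, P i)).subgroupMap (Subgroup.closure S)) (by
      intro x y hxy
      have := congrArg Subtype.val hxy
      exact Subtype.ext (Subtype.ext this))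

/-- homomorphic images of subgroups which are `p`-groups are locally finite -/
def PLF (G : Type u) [Group G] : Prop := ∀ p : ℕ, p.Prime → ∀ (A : Subgroup G) (H : Type u)
  [Group H] (f : A →* H), Function.Surjective f → (∀ x : H, ∃ k : ℕ, x ^ p ^ k = 1) → LFu H

theorem lf_of_top {G : Type u} [Group G] (hL : PLF G) (m : ℕ) (h : (US G m).1 = ⊤) : LFu G := by
  have key : ∀ i, LFu (US G i).1 := by
    intro i
    induction i with
    | zero => exact LFu.bot G
    | succ i ih =>
      rw [US_succ_eq]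
      refine LFu.iSup _ (fun p => inferInstance) fun p => ?_
      have h1 : ((US G i).1.subgroupOf (PP G i p.1)).Normal := inferInstance
      apply schmidt ((US G i).1.subgroupOf (PP G i p.1))
      · refine LFu.of_inj (H := ↥(US G i).1)
          { toFun := fun x => ⟨((x : ↥(PP G i p.1)) : G), x.2⟩
            map_one' := rfl
            map_mul' := fun _ _ => rfl } ?_ ih
        intro x y hxy
        have : ((x : ↥(PP G i p.1)) : G) = ((y : ↥(PP G i p.1)) : G) :=
          congrArg (fun z : ↥(US G i).1 => (z : G)) hxy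
        exact Subtype.ext (Subtype.ext this)
      · refine hL p.1 p.2 (PP G i p.1) _ (QuotientGroup.mk' _) (QuotientGroup.mk'_surjective _) ?_
        intro x
        obtain ⟨x, rfl⟩ := QuotientGroup.mk'_surjective _ x
        obtain ⟨k, hk⟩ := PP_pow x.2
        refine ⟨k, ?_⟩
        rw [← map_pow]
        refine (QuotientGroup.eq_one_iff _).2 ?_
        rw [Subgroup.mem_subgroupOf]
        simpa using hk
  have h2 := key m
  rw [h] at h2
  exact LFu.of_surj (G := ↥(⊤ : Subgroup G)) (Subgroup.subtype ⊤) (fun x => ⟨⟨x, trivial⟩, rfl⟩) h2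

end Pool.Agent.Y552.BU
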