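import Mathlib
import Pool.Agent.Y552.BU.C

set_option autoImplicit false

/-!
# Groups with finite soluble three-generator subgroups, part D: bounded exponent, varieties
-/

namespace Pool.Agent.Y552.BU

open Pool.Agent.H32BU

universe u v

/-- chains of normal subgroups with factors of prime power exponent -/
inductive Chain {G : Type u} [Group G] (n : ℕ) : ℕ → Subgroup G → Subgroup G → Prop
  | refl (A : Subgroup G) (hA : A.Normal) : Chain n 0 A A
  | step (l : ℕ) (A B C : Subgroup G) (h : Chain n l A B) (hC : C.Normal) (hBC : B ≤ C)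
      (hp : ∃ p k : ℕ, p.Prime ∧ p ^ k ∣ n ∧ ∀ x ∈ C, x ^ p ^ k ∈ B) : Chain n (l + 1) A C

theorem Chain.normal {G : Type u} [Group G] {n l : ℕ} {A B : Subgroup G} (h : Chain n l A B) :
    B.Normal := by
  cases h with
  | refl _ hA => exact hA
  | step l _ _ _ h hC => exact hC

theorem Chain.trans {G : Type u} [Group G] {n l m : ℕ} {A B C : Subgroup G} (h1 : Chain n l A B)
    (h2 : Chain n m B C) : Chain n (l + m) A C := by
  induction h2 with
  | refl _ _ => exact h1
  | step m _ C' D _ hC hBC hp ih => exact Chain.step (l + m) A C' D (ih h1) hC hBC hp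

/-- `G` has a normal series `1 = N 0 ≤ N 1 ≤ … ≤ N l = G` such that each factor has an exponent
dividing a prime power which divides `n`. -/
def HasSeries (n l : ℕ) (G : Type u) [Group G] : Prop :=
  ∃ N : ℕ → Subgroup G, N 0 = ⊥ ∧ N l = ⊤ ∧ ∀ i, (N i).Normal ∧ N i ≤ N (i + 1) ∧
    ∃ p k : ℕ, p.Prime ∧ p ^ k ∣ n ∧ ∀ x ∈ N (i + 1), x ^ p ^ k ∈ N i

theorem Chain.series {G : Type u} [Group G] {n l : ℕ} {A B : Subgroup G} (h : Chain n l A B) :
    ∃ N : ℕ → Subgroup G, N 0 = A ∧ (∀ i, l ≤ i → N i = B) ∧ ∀ i, (N i).Normal ∧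
      N i ≤ N (i + 1) ∧ ∃ p k : ℕ, p.Prime ∧ p ^ k ∣ n ∧ ∀ x ∈ N (i + 1), x ^ p ^ k ∈ N i := by
  induction h with
  | refl A hA =>
    exact ⟨fun _ => A, rfl, fun _ _ => rfl, fun _ => ⟨hA, le_rfl, 2, 0, Nat.prime_two, by simp,
      fun x hx => by simpa using hx⟩⟩
  | step l A B C _ hC hBC hp ih =>
    obtain ⟨N, h0, hl, hN⟩ := ih
    refine ⟨fun i => if i ≤ l then N i else C, by simp [h0], fun i hi => ?_, fun i => ?_⟩
    · simp [show ¬ i ≤ l by omega]
    · rcases lt_trichotomy i l with hi | hi | hi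
      · simp only [show i ≤ l by omega, show i + 1 ≤ l by omega, if_true]
        exact hN i
      · subst hi
        simp only [le_refl, if_true, show ¬ i + 1 ≤ i by omega, if_false]
        rw [hl i le_rfl]
        refine ⟨?_, hBC, hp⟩
        have := (hN i).1
        rwa [hl i le_rfl] at this
      · simp only [show ¬ i ≤ l by omega, show ¬ i + 1 ≤ l by omega, if_false]
        exact ⟨hC, le_rfl, 2, 0, Nat.prime_two, by simp, fun x hx => by simpa using hx⟩

theorem chain_US {G : Type u} [Group G] {n : ℕ} (hn : n ≠ 0) (hG : ∀ x : G, x ^ n = 1) (i : ℕ) :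
    Chain n n.primeFactors.card (US G i).1 (US G (i + 1)).1 := by
  classical
  have hPq : ∀ p : ℕ, p.Prime → ∀ x ∈ PP G i p, x ^ p ^ n.factorization p ∈ (US G i).1 := by
    intro p hp x hx
    obtain ⟨k, hk⟩ := PP_pow hx
    rw [← QuotientGroup.eq_one_iff, QuotientGroup.mk_pow] at hk ⊢
    exact pow_qp hp hn (x : G ⧸ (US G i).1) (by rw [← QuotientGroup.mk_pow, hG]; rfl) ⟨k, hk⟩
  have key : ∀ s : Finset ℕ, (∀ p ∈ s, p.Prime) →
      Chain n s.card (US G i).1 ((US G i).1 ⊔ ⨆ p ∈ s, PP G i p) := by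
    intro s
    induction s using Finset.induction_on with
    | empty =>
      intro _
      have e : ((US G i).1 ⊔ ⨆ p ∈ (∅ : Finset ℕ), PP G i p) = (US G i).1 := by simp
      rw [e]
      exact Chain.refl _ (US G i).2
    | insert p s hps ih =>
      intro hs
      have hp := hs p (Finset.mem_insert_self _ _)
      have ih' := ih fun q hq => hs q (Finset.mem_insert_of_mem hq)
      rw [Finset.card_insert_of_notMem hps, Finset.iSup_insert]
      have hnB := ih'.normal
      have e : (US G i).1 ⊔ (PP G i p ⊔ ⨆ x ∈ s, PP G i x) =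
          PP G i p ⊔ ((US G i).1 ⊔ ⨆ x ∈ s, PP G i x) := by
        rw [← sup_assoc, ← sup_assoc, sup_comm (US G i).1 (PP G i p)]
      rw [e]
      refine Chain.step _ _ _ _ ih' (Subgroup.sup_normal _ _) le_sup_right
        ⟨p, n.factorization p, hp, Nat.ordProj_dvd n p, fun x hx => ?_⟩
      obtain ⟨a, ha, b, hb, rfl⟩ := Subgroup.mem_sup_of_normal_left.1 hx
      rw [← QuotientGroup.eq_one_iff, QuotientGroup.mk_pow, QuotientGroup.mk_mul,
        (QuotientGroup.eq_one_iff b).2 hb, mul_one, ← QuotientGroup.mk_pow,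
        QuotientGroup.eq_one_iff]
      exact (le_sup_left : (US G i).1 ≤ _) (hPq p hp a ha)
  have h1 := key n.primeFactors fun p hp => Nat.prime_of_mem_primeFactors hp
  have e : ((US G i).1 ⊔ ⨆ p ∈ n.primeFactors, PP G i p) = (US G (i + 1)).1 := by
    apply le_antisymm
    · refine sup_le (US_le_succ G i) (iSup₂_le fun p hp => ?_)
      exact PP_le_US (Nat.prime_of_mem_primeFactors hp)
    · rw [US_succ_eq]
      refine iSup_le fun p => ?_
      by_cases hp : p.1 ∈ n.primeFactors
      · exact (le_iSup₂_of_le (f := fun p _ => PP G i p) p.1 hp le_rfl).trans le_sup_right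
      · refine le_trans ?_ le_sup_left
        intro x hx
        have h2 := hPq p.1 p.2 x hx
        have h3 : n.factorization p.1 = 0 := by
          rw [Nat.factorization_eq_zero_iff]
          by_contra hcon
          push Not at hcon
          exact hp (Nat.mem_primeFactors.2 ⟨p.2, hcon.2.1, hcon.2.2⟩)
        rw [h3, pow_zero, pow_one] at h2
        exact h2
  rwa [e] at h1

theorem hasSeries_of_top {G : Type u} [Group G] {n : ℕ} (hn : n ≠ 0) (hG : ∀ x : G, x ^ n = 1)
    (h : ℕ) (ht : (US G h).1 = ⊤) : HasSeries n (h * n.primeFactors.card) G := by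
  have key : ∀ m : ℕ, Chain n (m * n.primeFactors.card) (⊥ : Subgroup G) (US G m).1 := by
    intro m
    induction m with
    | zero =>
      rw [Nat.zero_mul]
      exact Chain.refl _ inferInstance
    | succ m ih =>
      rw [Nat.succ_mul]
      exact ih.trans (chain_US hn hG m)
  obtain ⟨N, h0, hl, hN⟩ := (key h).series
  exact ⟨N, h0, by rw [hl _ le_rfl, ht], hN⟩

/-! ## two primes -/

theorem solvable_of_two {G : Type u} [Group G] {n : ℕ} (hn : 1 ≤ n)
    (h2 : n.primeFactors.card ≤ 2) (hG : ∀ x : G, x ^ n = 1) (E : Subgroup G) (hE : Finite E) :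
    Group.IsSolvable E := by
  obtain ⟨F, _, _, f, hf, rfl⟩ := exists_small E hE
  obtain ⟨p, q, a, b, hp, hq, hnn⟩ := two_primes n hn h2
  obtain ⟨c, e, hce⟩ := x_CRD F p q a b hp hq (fun x => by
    rw [← hnn]
    apply hf
    rw [map_pow, hG, map_one])
  have hs : Group.IsSolvable F := x_BUR F p q c e hp hq hce
  exact Group.isSolvable_of_surjective f.rangeRestrict_surjective

/-! ## varieties -/

/-- the group obeys the laws in `L` -/
def Obeys (L : Set (FreeGroup ℕ)) (G : Type u) [Group G] : Prop :=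
  ∀ f : FreeGroup ℕ →* G, ∀ w ∈ L, f w = 1

/-- homomorphism onto a three-generator subgroup -/
theorem exists_hom_u (L : Set (FreeGroup ℕ)) (G : Type u) [Group G] (h : Obeys L G) (a x z : G) :
    ∃ F : F3 L →* G, F.range = Subgroup.closure {a, x, z} := by
  let g : FreeGroup (Fin 3) →* G := FreeGroup.lift ![a, x, z]
  have hg : Subgroup.normalClosure
      {u : FreeGroup (Fin 3) | ∃ f : FreeGroup ℕ →* FreeGroup (Fin 3), ∃ w ∈ L, u = f w} ≤ g.ker := by
    apply Subgroup.normalClosure_le_normal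
    rintro _ ⟨f, w, hw, rfl⟩
    exact h (g.comp f) w hw
  refine ⟨QuotientGroup.lift _ g hg, ?_⟩
  have h1 : (QuotientGroup.lift _ g hg).range = g.range := by
    ext y
    constructor
    · rintro ⟨q, rfl⟩
      obtain ⟨u, rfl⟩ := QuotientGroup.mk_surjective q
      exact ⟨u, rfl⟩
    · rintro ⟨u, rfl⟩
      exact ⟨QuotientGroup.mk u, rfl⟩
  rw [h1, FreeGroup.range_lift_eq_closure]
  congr 1
  ext y
  simp only [Set.mem_range, Set.mem_insert_iff, Set.mem_singleton_iff]
  constructor
  · rintro ⟨i, rfl⟩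
    fin_cases i <;> simp
  · rintro (rfl | rfl | rfl)
    · exact ⟨0, rfl⟩
    · exact ⟨1, rfl⟩
    · exact ⟨2, rfl⟩

/-- groups all of whose three-generator subgroups are images of a finite soluble group -/
theorem of_image {F : Type} [Group F] [Finite F] (hs : Group.IsSolvable F) (h : ℕ)
    (hF : DDu (⊤ : Subgroup F) h = ⊥) {G : Type u} [Group G]
    (hG : ∀ a x z : G, ∃ f : F →* G, f.range = Subgroup.closure {a, x, z}) :
    FS3 G ∧ (US G h).1 = ⊤ := by
  have h3 : FS3 G := by
    intro a x z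
    obtain ⟨f, hf⟩ := hG a x z
    rw [← hf]
    exact ⟨Finite.of_surjective f.rangeRestrict f.rangeRestrict_surjective,
      Group.isSolvable_of_surjective f.rangeRestrict_surjective⟩
  refine ⟨h3, US_eq_top h3 h fun a x => ?_⟩
  obtain ⟨f, hf⟩ := hG a x x
  have e : Subgroup.closure {a, x, x} = Subgroup.closure ({a, x} : Set G) := by
    congr 1
    simp
  rw [e] at hf
  rw [← hf, MonoidHom.range_eq_map, ← DDu_map f _ (fun x _ => isOfFinOrder_of_finite x), hF,
    Subgroup.map_bot]

theorem solvable_of_FH (h : ℕ) : ∀ (E : Type u) [Group E], FH h E → Group.IsSolvable E := by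
  induction h with
  | zero =>
    intro E _ hE
    have : Subsingleton E := ⟨fun a b => by rw [hE a, hE b]⟩
    infer_instance
  | succ h ih =>
    intro E _ hE
    obtain ⟨N, hN, hnil, hQ⟩ := hE
    have h1 := ih (E ⧸ N) hQ
    have h2 : Group.IsSolvable N := inferInstance
    exact Group.isSolvable_of_ker_le_range N.subtype (QuotientGroup.mk' N) (by
      rw [QuotientGroup.ker_mk', Subgroup.range_subtype])

/-- the free Burnside group -/
theorem exists_hom_B (n : ℕ) (G : Type u) [Group G] (h : ∀ x : G, x ^ n = 1) (a x z : G) :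
    ∃ F : Bu 3 n →* G, F.range = Subgroup.closure {a, x, z} := by
  let g : FreeGroup (Fin 3) →* G := FreeGroup.lift ![a, x, z]
  have hg : Subgroup.normalClosure
      (Set.range fun w : FreeGroup (Fin 3) => w ^ n) ≤ g.ker := by
    apply Subgroup.normalClosure_le_normal
    rintro _ ⟨w, rfl⟩
    rw [SetLike.mem_coe, MonoidHom.mem_ker, map_pow, h]
  refine ⟨QuotientGroup.lift _ g hg, ?_⟩
  have h1 : (QuotientGroup.lift _ g hg).range = g.range := by
    ext y
    constructor
    · rintro ⟨q, rfl⟩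
      obtain ⟨u, rfl⟩ := QuotientGroup.mk_surjective q
      exact ⟨u, rfl⟩
    · rintro ⟨u, rfl⟩
      exact ⟨QuotientGroup.mk u, rfl⟩
  rw [h1, FreeGroup.range_lift_eq_closure]
  congr 1
  ext y
  simp only [Set.mem_range, Set.mem_insert_iff, Set.mem_singleton_iff]
  constructor
  · rintro ⟨i, rfl⟩
    fin_cases i <;> simp
  · rintro (rfl | rfl | rfl)
    · exact ⟨0, rfl⟩
    · exact ⟨1, rfl⟩
    · exact ⟨2, rfl⟩

end Pool.Agent.Y552.BU
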