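import Mathlib
import Pool.Agent.Y552.BU.D

set_option autoImplicit false

/-!
# Groups with finite soluble three-generator subgroups, part E: local finiteness, free groups
-/

namespace Pool.Agent.Y552.BU

open Pool.Agent.H32BU

universe u v

theorem FH_of_derived (d : ℕ) : ∀ (E : Type u) [Group E], derivedSeries E d = ⊥ → FH d E := by
  induction d with
  | zero =>
    intro E _ h x
    have h1 : x ∈ derivedSeries E 0 := trivial
    rw [h] at h1
    exact Subgroup.mem_bot.1 h1
  | succ d ih =>
    intro E _ h
    refine ⟨derivedSeries E d, inferInstance, ?_, ih _ ?_⟩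
    · have hc : ∀ x ∈ derivedSeries E d, ∀ y ∈ derivedSeries E d, x * y = y * x := by
        intro x hx y hy
        have h1 : x * y * x⁻¹ * y⁻¹ ∈ derivedSeries E (d + 1) := by
          rw [derivedSeries_succ]
          exact Subgroup.commutator_mem_commutator hx hy
        rw [h, Subgroup.mem_bot] at h1
        have h2 : x * y = (x * y * x⁻¹ * y⁻¹) * (y * x) := by group
        rw [h2, h1, one_mul]
      let _ : CommGroup (derivedSeries E d) :=
        { (inferInstance : Group (derivedSeries E d)) with
          mul_comm := fun a b => Subtype.ext (hc a a.2 b b.2) }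
      infer_instance
    · rw [← map_derivedSeries_eq (QuotientGroup.mk'_surjective (derivedSeries E d)) d,
        Subgroup.map_eq_bot_iff, QuotientGroup.ker_mk']

theorem exists_FH {F : Type u} [Group F] (hs : Group.IsSolvable F) : ∃ h, FH h F := by
  obtain ⟨n, hn⟩ := hs.solvable
  exact ⟨n, FH_of_derived n F hn⟩

/-- local finiteness from the sections of prime power exponent greater than four -/
theorem plf_of {G : Type u} [Group G] {n : ℕ} (hn : n ≠ 0) (hG : ∀ x : G, x ^ n = 1)
    (h : ∀ p k : ℕ, p.Prime → p ^ k ∣ n → 4 < p ^ k → ∀ (A : Subgroup G) (H : Type u) [Group H]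
      (f : A →* H), Function.Surjective f → (∀ x : H, x ^ p ^ k = 1) → LFu H) : PLF G := by
  intro p hp A H _ f hf hx
  have hx' : ∀ x : H, x ^ p ^ n.factorization p = 1 := by
    intro x
    refine pow_qp hp hn x ?_ (hx x)
    obtain ⟨y, rfl⟩ := hf x
    rw [← map_pow]
    have : y ^ n = 1 := by
      ext
      simpa using hG y
    rw [this, map_one]
  by_cases h4 : 4 < p ^ n.factorization p
  · exact h p _ hp (Nat.ordProj_dvd n p) h4 A H f hf hx'
  · exact (inL_iff.{u} x_LFD _).2 (small_pp x_LFD x_L34 p _ hp h4) H hx'

theorem obeys_inj_u {L : Set (FreeGroup ℕ)} {G : Type u} {H : Type v} [Group G] [Group H]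
    (i : G →* H) (hi : Function.Injective i) (h : Obeys L H) : Obeys L G := by
  intro f w hw
  apply hi
  rw [map_one]
  exact h (i.comp f) w hw

theorem obeys_surj_u {L : Set (FreeGroup ℕ)} {G : Type u} {H : Type v} [Group G] [Group H]
    (i : G →* H) (hi : Function.Surjective i) (h : Obeys L G) : Obeys L H := by
  intro f w hw
  choose s hs using hi
  let f' : FreeGroup ℕ →* G := FreeGroup.lift fun n => s (f (FreeGroup.of n))
  have : f = i.comp f' := by
    ext n
    simp [f', hs]
  rw [this]
  simp [h f' w hw]

/-- all parts for varieties -/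
theorem variety (L : Set (FreeGroup ℕ)) (hf : Finite (F3 L)) (h : ℕ) (hF : FH h (F3 L)) :
    (∀ (G : Type u) [Group G], Obeys L G → FS3 G ∧ (US G h).1 = ⊤) := by
  intro G _ hG
  exact of_image (solvable_of_FH h _ hF) h
    (DDu_of_FH h _ (fun x => isOfFinOrder_of_finite x) hF) (exists_hom_u L G hG)

end Pool.Agent.Y552.BU
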